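import Mathlib

set_option autoImplicit false

/-!
# Mean square of a finite exponential sum (module L of MP_0ec205_nt)
-/

noncomputable section

namespace Pool.Agent.helper4.LRL

open Complex MeasureTheory Set

/-- `∑_{γ ∈ G} m(γ) e^{iγy}` -/
def AA (m : ℝ → ℕ) (G : Finset ℝ) (y : ℝ) : ℂ := ∑ γ ∈ G, (m γ : ℂ) * cexp (γ * y * I)

lemma normSq_AA (m : ℝ → ℕ) (G : Finset ℝ) (y : ℝ) :
    ‖AA m G y‖ ^ 2 = ∑ γ ∈ G, ∑ γ' ∈ G, (m γ : ℝ) * (m γ' : ℝ) * Real.cos ((γ - γ') * y) := by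
  have h1 : AA m G y = ((∑ γ ∈ G, (m γ : ℝ) * Real.cos (γ * y) : ℝ) : ℂ) +
      ((∑ γ ∈ G, (m γ : ℝ) * Real.sin (γ * y) : ℝ) : ℂ) * I := by
    unfold AA
    push_cast
    rw [Finset.sum_mul, ← Finset.sum_add_distrib]
    refine Finset.sum_congr rfl fun γ _ => ?_
    rw [Complex.exp_mul_I]
    ring
  rw [← Complex.normSq_eq_norm_sq, h1, Complex.normSq_add_mul_I, sq, sq, Finset.sum_mul_sum,
    Finset.sum_mul_sum, ← Finset.sum_add_distrib]
  refine Finset.sum_congr rfl fun γ _ => ?_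
  rw [← Finset.sum_add_distrib]
  refine Finset.sum_congr rfl fun γ' _ => ?_
  rw [sub_mul, Real.cos_sub]
  ring

lemma integrable_exp {c : ℝ} (hc : 0 < c) : Integrable fun x : ℝ => Real.exp (-(c * |x|)) := by
  have h1 : IntegrableOn (fun x : ℝ => Real.exp (-(c * |x|))) (Ioi 0) := by
    have h2 := integrableOn_exp_mul_Ioi (a := -c) (by linarith) 0
    refine h2.congr_fun (fun x hx => ?_) measurableSet_Ioi
    simp only [abs_of_pos (mem_Ioi.1 hx), neg_mul]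
  have h2 : IntegrableOn (fun x : ℝ => Real.exp (-(c * |x|))) (Iic 0) := by
    have h2 := integrableOn_exp_mul_Iic (a := c) hc 0
    refine h2.congr_fun (fun x hx => ?_) measurableSet_Iic
    simp only [abs_of_nonpos (mem_Iic.1 hx), mul_neg, neg_neg]
  rw [← integrableOn_univ, ← Iic_union_Ioi (a := (0:ℝ))]
  exact h2.union h1

lemma continuous_AA (m : ℝ → ℕ) (G : Finset ℝ) (a : ℝ) : Continuous fun x : ℝ => AA m G (a * x) := by
  unfold AA
  fun_prop

theorem l2_integrable (m : ℝ → ℕ) (G : Finset ℝ) (a : ℝ) {c : ℝ} (hc : 0 < c) :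
    Integrable fun x : ℝ => ‖AA m G (a * x)‖ ^ 2 * Real.exp (-(c * |x|)) := by
  refine (integrable_exp hc).bdd_mul (c := (∑ γ ∈ G, (m γ : ℝ)) ^ 2)
    ((continuous_AA m G a).norm.pow 2).aestronglyMeasurable (Filter.Eventually.of_forall fun x => ?_)
  rw [Real.norm_of_nonneg (by positivity)]
  refine pow_le_pow_left₀ (norm_nonneg _) ?_ 2
  unfold AA
  refine (norm_sum_le _ _).trans (Finset.sum_le_sum fun γ _ => ?_)
  rw [norm_mul]
  have h1 : ‖cexp (γ * ↑(a * x) * I)‖ = 1 := by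
    have := Complex.norm_exp_ofReal_mul_I (γ * (a * x))
    push_cast at this ⊢
    exact this
  rw [h1, mul_one]
  simp

lemma integral_cos {c : ℝ} (hc : 0 < c) (u : ℝ) :
    ∫ x : ℝ, Real.cos (u * x) * Real.exp (-(c * |x|)) = 2 * c / (c ^ 2 + u ^ 2) := by
  have h1 : ∫ x : ℝ, Real.cos (u * x) * Real.exp (-(c * |x|)) =
      ∫ x : ℝ, (fun y : ℝ => Real.cos (u * y) * Real.exp (-(c * y))) |x| := by
    congr 1
    ext x
    have : Real.cos (u * |x|) = Real.cos (u * x) := by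
      rcases abs_cases x with ⟨h, _⟩ | ⟨h, _⟩
      · rw [h]
      · rw [h, mul_neg, Real.cos_neg]
    simp only [this]
  rw [h1]
  refine (integral_comp_abs (f := fun y : ℝ => Real.cos (u * y) * Real.exp (-(c * y)))).trans ?_
  have ha : ((-c : ℂ) + u * I).re < 0 := by simpa using hc
  have h2 := integral_exp_mul_complex_Ioi ha 0
  have h3 : ∫ x in Ioi (0:ℝ), Real.cos (u * x) * Real.exp (-(c * x)) =
      (∫ x : ℝ in Ioi (0:ℝ), cexp (((-c : ℂ) + u * I) * x)).re := by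
    rw [← RCLike.re_to_complex, ← integral_re (integrableOn_exp_mul_complex_Ioi ha 0)]
    refine setIntegral_congr_fun measurableSet_Ioi fun x _ => ?_
    simp only [RCLike.re_to_complex, Complex.exp_re]
    simp [mul_comm]
  rw [h3, h2]
  have h4 : (-cexp (((-c : ℂ) + u * I) * ((0:ℝ) : ℂ)) / ((-c : ℂ) + u * I)).re = c / (c ^ 2 + u ^ 2) := by
    rw [ofReal_zero, mul_zero, Complex.exp_zero, Complex.div_re]
    simp [Complex.normSq_apply]
    ring
  rw [h4]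
  ring

theorem l2_bound (m : ℝ → ℕ) (G : Finset ℝ) {a c : ℝ} (ha : a ≠ 0) (hc : 0 < c) (hc1 : c ≤ 1) :
    ∫ x : ℝ, ‖AA m G (a * x)‖ ^ 2 * Real.exp (-(c * |x|)) ≤
      2 / c * max 1 (1 / a ^ 2) *
        ∑ γ ∈ G, ∑ γ' ∈ G, (m γ : ℝ) * (m γ' : ℝ) / (1 + (γ - γ') ^ 2) := by
  have hint : ∀ γ γ' : ℝ, Integrable fun x : ℝ => (m γ : ℝ) * (m γ' : ℝ) *
      (Real.cos ((a * (γ - γ')) * x) * Real.exp (-(c * |x|))) := by
    intro γ γ'
    refine Integrable.const_mul ?_ _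
    refine (integrable_exp hc).bdd_mul (c := 1) (by fun_prop) (Filter.Eventually.of_forall fun x => ?_)
    exact Real.abs_cos_le_one _
  have h1 : ∫ x : ℝ, ‖AA m G (a * x)‖ ^ 2 * Real.exp (-(c * |x|)) =
      ∑ γ ∈ G, ∑ γ' ∈ G, (m γ : ℝ) * (m γ' : ℝ) * (2 * c / (c ^ 2 + (a * (γ - γ')) ^ 2)) := by
    have h2 : ∀ x : ℝ, ‖AA m G (a * x)‖ ^ 2 * Real.exp (-(c * |x|)) =
        ∑ γ ∈ G, ∑ γ' ∈ G, (m γ : ℝ) * (m γ' : ℝ) *
          (Real.cos ((a * (γ - γ')) * x) * Real.exp (-(c * |x|))) := by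
      intro x
      rw [normSq_AA, Finset.sum_mul]
      refine Finset.sum_congr rfl fun γ _ => ?_
      rw [Finset.sum_mul]
      refine Finset.sum_congr rfl fun γ' _ => ?_
      rw [show (γ - γ') * (a * x) = (a * (γ - γ')) * x by ring]
      ring
    simp_rw [h2]
    rw [integral_finsetSum _ fun γ _ => integrable_finsetSum _ fun γ' _ => hint γ γ']
    refine Finset.sum_congr rfl fun γ _ => ?_
    rw [integral_finsetSum _ fun γ' _ => hint γ γ']
    refine Finset.sum_congr rfl fun γ' _ => ?_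
    rw [integral_const_mul, integral_cos hc]
  rw [h1, Finset.mul_sum]
  refine Finset.sum_le_sum fun γ _ => ?_
  rw [Finset.mul_sum]
  refine Finset.sum_le_sum fun γ' _ => ?_
  set M : ℝ := max 1 (1 / a ^ 2) with hM
  have hM1 : 1 ≤ M := le_max_left _ _
  have ha2 : 0 < a ^ 2 := by positivity
  have hM2 : 1 ≤ M * a ^ 2 := by
    have : 1 / a ^ 2 ≤ M := le_max_right _ _
    rwa [div_le_iff₀ ha2] at this
  set δ : ℝ := γ - γ'
  have h3 : 2 * c / (c ^ 2 + (a * δ) ^ 2) ≤ 2 / c * M / (1 + δ ^ 2) := by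
    rw [div_le_div_iff₀ (by positivity) (by positivity), div_mul_eq_mul_div, div_mul_eq_mul_div,
      le_div_iff₀ hc]
    have h5 : c ^ 2 * 1 ≤ c ^ 2 * M := mul_le_mul_of_nonneg_left hM1 (by positivity)
    have h6 : c ^ 2 ≤ 1 := by nlinarith
    have h7 : c ^ 2 * δ ^ 2 ≤ 1 * δ ^ 2 := mul_le_mul_of_nonneg_right h6 (by positivity)
    have h8 : 1 * δ ^ 2 ≤ M * a ^ 2 * δ ^ 2 := mul_le_mul_of_nonneg_right hM2 (by positivity)
    nlinarith
  have h4 : 0 ≤ (m γ : ℝ) * (m γ' : ℝ) := by positivity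
  calc (m γ : ℝ) * (m γ' : ℝ) * (2 * c / (c ^ 2 + (a * δ) ^ 2))
      ≤ (m γ : ℝ) * (m γ' : ℝ) * (2 / c * M / (1 + δ ^ 2)) := mul_le_mul_of_nonneg_left h3 h4
    _ = 2 / c * M * ((m γ : ℝ) * (m γ' : ℝ) / (1 + δ ^ 2)) := by ring

end Pool.Agent.helper4.LRL
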